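import Mathlib
import Pool.Agent.W492.BB.Defs

/-!
# Push-forwards along isomorphisms
-/

set_option autoImplicit false

open CategoryTheory AlgebraicGeometry

universe u v

namespace Pool.Agent.W543.MO

open Pool.Agent.H914 Pool.Agent.H914.VarClass Pool.Agent.H914.VarClass.Obj Pool.Agent.W492.BB

variable {k : Type u} [Field k] {𝒱 : VarClass k}

/-- Push-forwards along isomorphisms preserve the fundamental class. -/
class PreservesOne (C : TheoryData.{u, v, 0} 𝒱 ℚ) : Prop where
  push_one : ∀ {X Y : 𝒱.Obj} (f : X ⟶ Y) (g : Y ⟶ X), f ≫ g = 𝟙 X → g ≫ f = 𝟙 Y →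
    C.down f 1 = 1

end Pool.Agent.W543.MO
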