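import Mathlib
import Pool.Agent.W543.MO.Iso
import Pool.Agent.W484.CK.Stm
import Pool.Agent.W550.Corr.Basic

/-!
# The calculus of correspondences
-/

set_option autoImplicit false

open CategoryTheory AlgebraicGeometry

universe u v

namespace Pool.Agent.W543.MO

open Pool.Agent.H914 Pool.Agent.H914.VarClass Pool.Agent.H914.VarClass.Obj Pool.Agent.W492.BB
  Pool.Agent.W550.Corr Pool.Agent.W484.CK

variable {k : Type u} [Field k] {𝒱 : VarClass k} (C : TheoryData.{u, v, 0} 𝒱 ℚ)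

theorem hasIso [h : PreservesOne C] : HasIso C := ⟨h.push_one⟩

variable {W X Y Z : 𝒱.Obj}

theorem compose_eq (Γ : C.A (X.prod Y)) (Δ : C.A (Y.prod Z)) : compose C Γ Δ = C.comp Γ Δ := rfl

theorem diagonal_eq (X : 𝒱.Obj) : diagonal C X = dg C X := rfl

theorem deg_compose [hC : IsChow C] {a b c : ℤ} {Γ : C.A (X.prod Y)} {Δ : C.A (Y.prod Z)}
    (h1 : C.Deg a Γ) (h2 : C.Deg b Δ) (h : a + b - Y.dim = c) : C.Deg c (compose C Γ Δ) := by
  have := hC.isTheory
  have h3 := C.push_mem (t13 X Y Z) (C.mul_mem (C.pull_mem (t23 X Y Z) h2)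
    (C.pull_mem (fst (X.prod Y) Z) h1))
  have h4 : b + a + 1 * (((X.prod Z).dim : ℤ) - ((X.prod Y).prod Z).dim) = c := by
    rw [← h, Obj.dim_prod, Obj.dim_prod, Obj.dim_prod]
    push_cast
    ring
  rw [h4] at h3
  exact h3

theorem deg_diagonal [hC : IsChow C] (X : 𝒱.Obj) : C.Deg X.dim (diagonal C X) := by
  have := hC.isTheory
  have h1 := C.push_mem (Obj.lift (𝟙 X) (𝟙 X)) (C.one_mem X)
  have h2 : 0 + 1 * (((X.prod X).dim : ℤ) - X.dim) = X.dim := by
    rw [Obj.dim_prod]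
    push_cast
    ring
  rw [h2] at h1
  exact h1

theorem diagonal_compose [hC : IsChow C] (Γ : C.A (X.prod Y)) :
    compose C (diagonal C X) Γ = Γ := by
  have := hC.isTheory
  exact dg_comp C Γ

theorem compose_diagonal [hC : IsChow C] [PreservesOne C] (Γ : C.A (X.prod Y)) :
    compose C Γ (diagonal C Y) = Γ := by
  have := hC.isTheory
  have := hasIso C
  exact comp_dg C Γ

theorem compose_assoc [hC : IsChow C] [PreservesOne C] (Γ : C.A (X.prod Y)) (Δ : C.A (Y.prod Z))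
    (Θ : C.A (Z.prod W)) : compose C (compose C Γ Δ) Θ = compose C Γ (compose C Δ Θ) := by
  have := hC.isTheory
  have := hasIso C
  exact comp_assoc C Γ Δ Θ

theorem add_compose (Γ Γ' : C.A (X.prod Y)) (Δ : C.A (Y.prod Z)) :
    compose C (Γ + Γ') Δ = compose C Γ Δ + compose C Γ' Δ := add_comp C Γ Γ' Δ

theorem compose_add (Γ : C.A (X.prod Y)) (Δ Δ' : C.A (Y.prod Z)) :
    compose C Γ (Δ + Δ') = compose C Γ Δ + compose C Γ Δ' := comp_add C Γ Δ Δ'

end Pool.Agent.W543.MO
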