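import Mathlib
import Pool.Agent.W543.MO.Pre
import Pool.Agent.W484.CK.BB

/-!
# Chow motives of a class of varieties: definitions
-/

set_option autoImplicit false

open CategoryTheory AlgebraicGeometry

universe u v w

namespace Pool.Agent.W543.MO

open Pool.Agent.H914 Pool.Agent.H914.VarClass Pool.Agent.H914.VarClass.Obj Pool.Agent.W492.BB
  Pool.Agent.W484.CK

variable {k : Type u} [Field k] {𝒱 : VarClass k}

/-- The Tate twist `h(X)(m)` of the Chow motive of a variety `X` of the class. -/
structure TateTwist (C : TheoryData.{u, v, 0} 𝒱 ℚ) where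
  /-- the variety -/
  X : 𝒱.Obj
  /-- the twist -/
  m : ℤ

section

variable {C : TheoryData.{u, v, 0} 𝒱 ℚ}

/-- `Hom (h(X)(m), h(Y)(n)) = CH^(dim X + n - m) (X × Y)`: the correspondences of degree
`n - m`. -/
def Hom (M N : TateTwist C) : Type v := C.gr (M.X.prod N.X) (M.X.dim + N.m - M.m)

/-- The morphism given by a class on `X × Y`. -/
def Hom.mk {M N : TateTwist C} (z : C.A (M.X.prod N.X))
    (h : C.Deg (M.X.dim + N.m - M.m) z) : Hom M N := ⟨z, h⟩

/-- The class on `X × Y` defining a morphism. -/
def Hom.val {M N : TateTwist C} (f : Hom M N) : C.A (M.X.prod N.X) := f.1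

/-- The addition of correspondences. -/
noncomputable instance homGroup (M N : TateTwist C) : AddCommGroup (Hom M N) :=
  Submodule.addCommGroup (C.gr (M.X.prod N.X) (M.X.dim + N.m - M.m))

theorem Hom.deg {M N : TateTwist C} (f : Hom M N) : C.Deg (M.X.dim + N.m - M.m) f.val := f.2

theorem Hom.ext {M N : TateTwist C} {f g : Hom M N} (h : f.val = g.val) : f = g := Subtype.ext h

variable [IsChow C]

theorem comp_deg {M N P : TateTwist C} (f : Hom M N) (g : Hom N P) :
    C.Deg (M.X.dim + P.m - M.m) (compose C f.val g.val) :=
  deg_compose C f.deg g.deg (by ring)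

theorem id_deg (M : TateTwist C) : C.Deg (M.X.dim + M.m - M.m) (diagonal C M.X) := by
  rw [add_sub_cancel_right]
  exact deg_diagonal C M.X

/-- The composition of correspondences: pull back to the triple product, intersect, push
forward. -/
noncomputable def Hom.comp {M N P : TateTwist C} (f : Hom M N) (g : Hom N P) : Hom M P :=
  Hom.mk (compose C f.val g.val) (comp_deg f g)

/-- The identity: the class of the diagonal. -/
noncomputable def Hom.id (M : TateTwist C) : Hom M M := Hom.mk (diagonal C M.X) (id_deg M)

theorem id_comp' {M N : TateTwist C} (f : Hom M N) : (Hom.id M).comp f = f :=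
  Hom.ext (diagonal_compose C f.val)

theorem add_comp' (M N P : TateTwist C) (f f' : Hom M N) (g : Hom N P) :
    (f + f').comp g = f.comp g + f'.comp g := Hom.ext (add_compose C f.val f'.val g.val)

theorem comp_add' (M N P : TateTwist C) (f : Hom M N) (g g' : Hom N P) :
    f.comp (g + g') = f.comp g + f.comp g' := Hom.ext (compose_add C f.val g.val g'.val)

variable [PreservesOne C]

theorem comp_id' {M N : TateTwist C} (f : Hom M N) : f.comp (Hom.id N) = f :=
  Hom.ext (compose_diagonal C f.val)

theorem assoc' {M N P Q : TateTwist C} (f : Hom M N) (g : Hom N P) (h : Hom P Q) :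
    (f.comp g).comp h = f.comp (g.comp h) := Hom.ext (compose_assoc C f.val g.val h.val)

/-- The category of the motives `h(X)(m)`: the morphisms are the correspondences. -/
noncomputable instance : Category (TateTwist C) where
  Hom := Hom
  id := Hom.id
  comp := Hom.comp
  id_comp := id_comp'
  comp_id := comp_id'
  assoc := assoc'

noncomputable instance : Preadditive (TateTwist C) where
  homGroup := homGroup
  add_comp := add_comp'
  comp_add := comp_add'

end

/-- The category of Chow motives with rational coefficients of the varieties of the class `𝒱`: the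
objects are the direct summands (given by idempotents) of the finite direct sums of motives
`h(X)(m)`, `X` in the class `𝒱`, `m` an integer. For the class of all smooth projective varieties
this is the category `CHMot(k)` of the triples `(X, p, m)`, `X` possibly disconnected. -/
abbrev CHMot (C : TheoryData.{u, v, 0} 𝒱 ℚ) [IsChow C] [PreservesOne C] : Type _ :=
  Idempotents.Karoubi (Mat_ (TateTwist C))

/-- The additive category `𝒟` is abelian: every morphism has a kernel and a cokernel, and the
canonical map from the coimage to the image is an isomorphism. -/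
def IsAbelianCat (𝒟 : Type u) [Category.{v} 𝒟] [Preadditive 𝒟] : Prop :=
  ∃ (_ : Limits.HasFiniteBiproducts 𝒟) (_ : Limits.HasKernels 𝒟) (_ : Limits.HasCokernels 𝒟),
    ∀ {X Y : 𝒟} (f : X ⟶ Y), IsIso (Abelian.coimageImageComparison f)

/-- The category `𝒟` is abelian and semisimple: it is abelian and every monomorphism is the
inclusion of a direct summand. -/
def IsSemisimpleCat (𝒟 : Type u) [Category.{v} 𝒟] [Preadditive 𝒟] : Prop :=
  IsAbelianCat 𝒟 ∧ ∀ {X Y : 𝒟} (f : X ⟶ Y), Mono f → ∃ g : Y ⟶ X, f ≫ g = 𝟙 X

end Pool.Agent.W543.MO
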