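import Mathlib
import Pool.Agent.W543.MO.Defs

/-!
# Chow motives of a class of varieties: the parts of the proof, as propositions
-/

set_option autoImplicit false

open CategoryTheory AlgebraicGeometry

namespace Pool.Agent.W543.MO

open Pool.Agent.H914 Pool.Agent.H914.VarClass Pool.Agent.H914.VarClass.Obj Pool.Agent.W492.BB
  Pool.Agent.W550.Corr Pool.Agent.W484.CK

/-- In the category `𝒟` every morphism is von Neumann regular. -/
def IsRegular (𝒟 : Type 1) [Category.{0} 𝒟] : Prop :=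
  ∀ {X Y : 𝒟} (f : X ⟶ Y), ∃ g : Y ⟶ X, f ≫ g ≫ f = f

/-- The radical of the category `𝒟` (in the sense below) is zero. -/
def RadicalZero (𝒟 : Type 1) [Category.{0} 𝒟] [Preadditive 𝒟] : Prop :=
  ∀ {X Y : 𝒟} (f : X ⟶ Y), (∀ g : Y ⟶ X, ∃ n : ℕ, (show End X from f ≫ g) ^ n = 0) → f = 0

/-- The Hom groups are finite-dimensional rational vector spaces (for some, necessarily unique,
structure of a rational vector space). -/
def HomFinite (𝒟 : Type 1) [Category.{0} 𝒟] [Preadditive 𝒟] : Prop :=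
  ∀ X Y : 𝒟, ∃ _ : Module ℚ (X ⟶ Y), Module.Finite ℚ (X ⟶ Y)

/-- PART REG. -/
def REG_stmt : Prop := ∀ (𝒟 : Type 1) [Category.{0} 𝒟] [Preadditive 𝒟]
  [Limits.HasBinaryBiproducts 𝒟], HomFinite 𝒟 → RadicalZero 𝒟 → IsRegular 𝒟

/-- PART RADMAT. -/
def RADMAT_stmt : Prop := ∀ (𝒟 : Type 1) [Category.{0} 𝒟] [Preadditive 𝒟],
  RadicalZero 𝒟 → RadicalZero (Mat_ 𝒟)

/-- PART RADKAR. -/
def RADKAR_stmt : Prop := ∀ (𝒟 : Type 1) [Category.{0} 𝒟] [Preadditive 𝒟],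
  RadicalZero 𝒟 → RadicalZero (Idempotents.Karoubi 𝒟)

/-- PART FINMAT. -/
def FINMAT_stmt : Prop := ∀ (𝒟 : Type 1) [Category.{0} 𝒟] [Preadditive 𝒟],
  HomFinite 𝒟 → HomFinite (Mat_ 𝒟)

/-- PART FINKAR. -/
def FINKAR_stmt : Prop := ∀ (𝒟 : Type 1) [Category.{0} 𝒟] [Preadditive 𝒟],
  HomFinite 𝒟 → HomFinite (Idempotents.Karoubi 𝒟)

/-- PART SSCAT. -/
def SSCAT_stmt : Prop := ∀ (𝒟 : Type 1) [Category.{0} 𝒟] [Preadditive 𝒟]
  [Limits.HasFiniteBiproducts 𝒟] [IsIdempotentComplete 𝒟], IsRegular 𝒟 → IsSemisimpleCat 𝒟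

/-- PART SSREG. -/
def SSREG_stmt : Prop := ∀ (𝒟 : Type 1) [Category.{0} 𝒟] [Preadditive 𝒟],
  IsSemisimpleCat (Idempotents.Karoubi (Mat_ 𝒟)) → IsRegular 𝒟

/-- PART TRCOMP: the intersection number of a correspondence and a transposed one. -/
def TRCOMP_stmt : Prop := ∀ (k : Type) [Field k] (𝒱 : VarClass k) (C : TheoryData.{0, 0, 0} 𝒱 ℚ)
  [IsChow C] [HasIso C] (K : Type) [Field K] (H : WeilTheoryData.{0, 0, 0} C K) [IsWeil H]
  (X Y : 𝒱.Obj) (f : C.A (X.prod Y)) (g : C.A (Y.prod X)),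
    H.tr (X.prod Y) (H.cl (f * C.pull (sw X Y) g)) =
      H.tr (X.prod X) (H.cl (C.comp f g * dg C X))

/-- PART TRNIL: the Lefschetz number of a nilpotent correspondence is zero. -/
def TRNIL_stmt : Prop := ∀ (k : Type) [Field k] (𝒱 : VarClass k) (C : TheoryData.{0, 0, 0} 𝒱 ℚ)
  [IsChow C] [HasIso C] (K : Type) [Field K] [CharZero K] (H : WeilTheoryData.{0, 0, 0} C K)
  [IsWeil H], IsStandard H → ∀ (X : 𝒱.Obj) (z : C.A (X.prod X)) (n : ℕ),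
    (∀ a : H.A X, ((H.toTheoryData.actL (H.cl z)) ^ n) a = 0) →
      H.tr (X.prod X) (H.cl (z * dg C X)) = 0

/-- PART FINCHOW. -/
def FINCHOW_stmt : Prop := ∀ (k : Type) [Field k] (𝒱 : VarClass k) (C : TheoryData.{0, 0, 0} 𝒱 ℚ)
  [IsChow C] (K : Type) [Field K] [CharZero K] (H : WeilTheoryData.{0, 0, 0} C K)
  [IsWeil H], IsStandard H → ∀ X : 𝒱.Obj, RatEqNum H X → ∀ i : ℤ, Module.Finite ℚ (C.gr X i)

/-- PART REGNUM. -/
def REGNUM_stmt : Prop := ∀ (k : Type) [Field k] (𝒱 : VarClass k) (C : TheoryData.{0, 0, 0} 𝒱 ℚ)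
  [IsChow C] [HasIso C] (K : Type) [Field K] [CharZero K] (H : WeilTheoryData.{0, 0, 0} C K)
  [IsWeil H], IsStandard H → ∀ X : 𝒱.Obj,
    (∀ (i : ℤ) (u : C.A (X.prod X)), u ∈ C.gr (X.prod X) i →
      ∃ g ∈ C.gr (X.prod X) (2 * X.dim - i), C.comp u (C.comp g u) = u) → RatEqNum H X

/-- PART DESC. -/
def DESC_stmt : Prop := ∀ (k : Type) [Field k] (𝒱 : VarClass k) (C : TheoryData.{0, 0, 0} 𝒱 ℚ)
  [IsChow C] (K : Type) [Field K] [CharZero K] (H : WeilTheoryData.{0, 0, 0} C K)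
  [IsWeil H] (X Y : 𝒱.Obj), Dominated C X Y → RatEqNum H Y → RatEqNum H X

/-- PART RES: the restriction of the theories to a subclass. -/
def RES_stmt : Prop := ∀ (k : Type) [Field k] (𝒱 𝒵 : VarClass k) (hle : IsSubclass 𝒵 𝒱)
  (C : TheoryData.{0, 0, 0} 𝒱 ℚ) (K : Type) [Field K] (H : WeilTheoryData.{0, 0, 0} C K),
    (IsChow C → IsChow (restrict hle C)) ∧ (HasIso C → HasIso (restrict hle C)) ∧
    (IsWeil H → IsWeil (restrictWeil hle H)) ∧ (IsStandard H → IsStandard (restrictWeil hle H)) ∧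
    (∀ Z : 𝒵.Obj, RatEqNum (restrictWeil hle H) Z ↔ RatEqNum H (incl hle Z))

end Pool.Agent.W543.MO
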