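import Mathlib
import Pool.Agent.W543.MO.Parts
import Pool.Agent.W550.Corr.Tens
import Pool.Agent.W484.CK.Main

/-!
# Chow motives of a class of varieties: assembly
-/

set_option autoImplicit false

open CategoryTheory AlgebraicGeometry

namespace Pool.Agent.W543.MO

open Pool.Agent.H914 Pool.Agent.H914.VarClass Pool.Agent.H914.VarClass.Obj Pool.Agent.W492.BB
  Pool.Agent.W550.Corr Pool.Agent.W484.CK

variable {k : Type} [Field k] {𝒱 𝒵 : VarClass k} {C : TheoryData.{0, 0, 0} 𝒱 ℚ}
  [hC : IsChow C] [hI : PreservesOne C] {K : Type} [Field K] [CharZero K]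
  {H : WeilTheoryData.{0, 0, 0} C K} [hH : IsWeil H]

attribute [local instance] hasIso

theorem homFinite (hS : IsStandard H) (hFIN : FINCHOW_stmt) (h : ∀ X : 𝒱.Obj, RatEqNum H X) :
    HomFinite (TateTwist C) := by
  intro M N
  have h1 := hFIN k 𝒱 C K H hS (M.X.prod N.X) (h _) (M.X.dim + N.m - M.m)
  let _ : Module ℚ (M ⟶ N) :=
    { smul := fun q f => (Hom.mk (q • Hom.val f) (Submodule.smul_mem _ q (Hom.deg f)) : Hom M N)
      one_smul := fun f => Hom.ext (one_smul ℚ (Hom.val f))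
      mul_smul := fun q r f => Hom.ext (mul_smul q r (Hom.val f))
      smul_zero := fun q => Hom.ext (smul_zero q)
      smul_add := fun q f g => Hom.ext (smul_add q (Hom.val f) (Hom.val g))
      add_smul := fun q r f => Hom.ext (add_smul q r (Hom.val f))
      zero_smul := fun f => Hom.ext (zero_smul ℚ (Hom.val f)) }
  refine ⟨inferInstance, ?_⟩
  let e : C.gr (M.X.prod N.X) (M.X.dim + N.m - M.m) →ₗ[ℚ] (M ⟶ N) :=
    { toFun := fun f => (Hom.mk f.1 f.2 : Hom M N)
      map_add' := fun _ _ => rfl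
      map_smul' := fun _ _ => rfl }
  exact Module.Finite.of_surjective e fun f => ⟨⟨Hom.val f, Hom.deg f⟩, rfl⟩

theorem coe_comp {M N P : TateTwist C} (f : M ⟶ N) (g : N ⟶ P) :
    Hom.val (f ≫ g) = C.comp (Hom.val f) (Hom.val g) := rfl

theorem coe_zero (M N : TateTwist C) : Hom.val (0 : M ⟶ N) = 0 := rfl

omit [CharZero K] in
/-- The action on the cohomology. -/
theorem act_pow {M : TateTwist C} (f : End M) (n : ℕ) (a : H.A M.X) :
    H.toTheoryData.actL (H.cl (Hom.val (f ^ n : End M))) a = ((H.toTheoryData.actL (H.cl (Hom.val f))) ^ n) a := by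
  induction n generalizing a with
  | zero =>
    have h1 : Hom.val (f ^ 0 : End M) = dg C M.X := by rw [pow_zero]; rfl
    rw [h1, pow_zero, Module.End.one_apply, H.actL_apply, cl_dg, act_dg]
  | succ n ih =>
    have h1 : Hom.val (f ^ (n + 1) : End M) = C.comp (Hom.val f) (Hom.val (f ^ n : End M)) := by rw [pow_succ]; rfl
    rw [h1, cl_comp, H.actL_apply, H.act_comp, pow_succ, Module.End.mul_apply, ← ih,
      H.actL_apply]
    rfl

theorem radicalZero (hS : IsStandard H) (hTR : TRCOMP_stmt) (hNIL : TRNIL_stmt)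
    (h : ∀ X : 𝒱.Obj, RatEqNum H X) : RadicalZero (TateTwist C) := by
  intro M N f hf
  by_cases hi : (M.X.dim : ℤ) + N.m - M.m < 0
  · have h1 : Hom.val f ∈ (⊥ : Submodule ℚ _) := by
      rw [← C.gr_neg _ _ hi]
      exact Hom.deg f
    exact Hom.ext ((Submodule.mem_bot ℚ).1 h1)
  · obtain ⟨i, hi'⟩ := Int.eq_ofNat_of_zero_le (not_lt.1 hi)
    refine Hom.ext (h (M.X.prod N.X) i (Hom.val f) ?_ ?_)
    · have h1 : ∀ e : ℤ, (M.X.dim : ℤ) + N.m - M.m = e →
          Hom.val f ∈ C.gr (M.X.prod N.X) e := by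
        rintro _ rfl
        exact Hom.deg f
      exact h1 _ hi'
    · intro j w hij hw
      set g0 : C.A (N.X.prod M.X) := C.pull (sw N.X M.X) w with hg0
      have hg : g0 ∈ C.gr (N.X.prod M.X) (N.X.dim + M.m - N.m) := by
        have h1 := C.pull_mem (sw N.X M.X) (i := (j : ℤ)) hw
        have h2 : (j : ℤ) = N.X.dim + M.m - N.m := by
          have h3 : ((i + j : ℕ) : ℤ) = M.X.dim + N.X.dim := by
            rw [hij, Obj.dim_prod]
            push_cast
            ring
          push_cast at h3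
          change (M.X.dim : ℤ) + N.m - M.m = (i : ℤ) at hi'
          omega
        rw [h2] at h1
        exact h1
      obtain ⟨n, hn⟩ := hf (Hom.mk g0 hg : Hom N M)
      have h1 := hTR k 𝒱 C K H M.X N.X (Hom.val f) g0
      have h2 : C.pull (sw M.X N.X) g0 = w := by
        rw [hg0, ← C.pull_comp, sw_sw, C.pull_id]
      rw [h2] at h1
      change H.tr (M.X.prod N.X) (H.cl (Hom.val f * w)) = 0
      rw [h1]
      refine hNIL k 𝒱 C K H hS M.X (C.comp (Hom.val f) g0) n fun a => ?_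
      have h3 := act_pow (H := H) (show End M from f ≫ (Hom.mk g0 hg : Hom N M)) n a
      rw [hn] at h3
      change H.toTheoryData.actL (H.cl (0 : C.A (M.X.prod M.X))) a = _ at h3
      rw [map_zero, H.actL_apply, H.act_zero] at h3
      exact h3.symm

theorem ratEqNum_of_regular (hS : IsStandard H) (hREG : REGNUM_stmt)
    (h : IsRegular (TateTwist C)) (X : 𝒱.Obj) : RatEqNum H X := by
  refine hREG k 𝒱 C K H hS X fun i u hu => ?_
  let M : TateTwist C := ⟨X, 0⟩
  let N : TateTwist C := ⟨X, i - X.dim⟩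
  have e1 : (M.X.dim : ℤ) + N.m - M.m = i := by
    change (X.dim : ℤ) + (i - X.dim) - 0 = i
    ring
  have e2 : (N.X.dim : ℤ) + M.m - N.m = 2 * X.dim - i := by
    change (X.dim : ℤ) + 0 - (i - X.dim) = _
    ring
  have hu' : u ∈ C.gr (M.X.prod N.X) (M.X.dim + N.m - M.m) := by
    rw [e1]
    exact hu
  obtain ⟨g, hg⟩ := h (X := M) (Y := N) (Hom.mk u hu' : Hom M N)
  refine ⟨Hom.val g, ?_, ?_⟩
  · have h1 : ∀ e : ℤ, (N.X.dim : ℤ) + M.m - N.m = e →
        Hom.val g ∈ C.gr (N.X.prod M.X) e := by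
      rintro _ rfl
      exact Hom.deg g
    exact h1 _ e2
  · have h2 := congrArg Hom.val hg
    exact h2

theorem isSemisimple_iff (hS : IsStandard H) (hTR : TRCOMP_stmt) (hNIL : TRNIL_stmt)
    (hFIN : FINCHOW_stmt) (hRN : REGNUM_stmt) (hREG : REG_stmt) (hRM : RADMAT_stmt)
    (hRK : RADKAR_stmt) (hFM : FINMAT_stmt) (hFK : FINKAR_stmt) (hSC : SSCAT_stmt)
    (hSR : SSREG_stmt) : IsSemisimpleCat (CHMot C) ↔ ∀ X : 𝒱.Obj, RatEqNum H X := by
  constructor
  · intro h X
    exact ratEqNum_of_regular hS hRN (hSR (TateTwist C) h) X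
  · intro h
    have h1 : HomFinite (CHMot C) := hFK _ (hFM _ (homFinite hS hFIN h))
    have h2 : RadicalZero (CHMot C) := hRK _ (hRM _ (radicalZero hS hTR hNIL h))
    have h3 : Limits.HasBinaryBiproducts (CHMot C) :=
      Limits.hasBinaryBiproducts_of_finite_biproducts _
    exact hSC (CHMot C) (hREG (CHMot C) h1 h2)

end Pool.Agent.W543.MO
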