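import Mathlib
import Pool.Agent.W543.MO.Iso
import Pool.Agent.W589.MO.DescRes

/-!
# Restriction to a subclass
-/

set_option autoImplicit false

universe u v

namespace Pool.Agent.W543.MO

open Pool.Agent.H914 Pool.Agent.W492.BB Pool.Agent.W484.CK

variable {k : Type u} [Field k] {𝒱 𝒵 : VarClass k}

instance isChow_restrict (hle : IsSubclass 𝒵 𝒱) (C : TheoryData.{u, v, 0} 𝒱 ℚ) [hC : IsChow C] :
    IsChow (restrict hle C) := W589.MO.restrict_isChow hle hC

instance preservesOne_restrict (hle : IsSubclass 𝒵 𝒱) (C : TheoryData.{u, v, 0} 𝒱 ℚ)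
    [hC : PreservesOne C] : PreservesOne (restrict hle C) where
  push_one := fun {X Y} f g => hC.push_one (X := incl hle X) (Y := incl hle Y) f g

end Pool.Agent.W543.MO
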