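import Mathlib
import Pool.Agent.W543.MO.Defs
import Pool.Agent.W543.MO.Restrict

/-!
# Chow motives over finite fields: the statement
-/

set_option autoImplicit false

open CategoryTheory AlgebraicGeometry

namespace Pool.Agent.W543.MO

open Polynomial Pool.Agent.H914 Pool.Agent.H914.VarClass Pool.Agent.H914.VarClass.Obj
  Pool.Agent.W492.BB Pool.Agent.W484.CK

/-- `MotForRankOver E q r f`: the following holds for the Chow groups `C` with rational
coefficients of all classes `𝒱` of varieties over fields `k` (finite, in the intended use) and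
every Weil cohomology theory `H` with coefficients in an algebraically closed field `K` of
characteristic zero. Let `𝒵` be a subclass (closed under products, like `𝒱`), such that every
variety of the class `𝒱` is dominated by a product `A × Z` with `Z` in `𝒵` and `A`, `Z` with
Frobenius endomorphisms `πA`, `πZ` as in `IsSituation`, where `πA × πZ` acts on the Chow groups of
`A × Z` in the usual way. Then the category of Chow motives of the class `𝒱` is abelian and
semisimple if and only if this holds for the class `𝒵`, and if and only if rational and numerical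
equivalence coincide on the varieties in `𝒵`. -/
def MotForRankOver (E : IntermediateField ℚ ℂ) (q r : ℕ) {I : Type} (f : I → ℤ[X]) : Prop :=
  ∀ (k : Type) [Field k] (𝒱 𝒵 : VarClass k) (hle : IsSubclass 𝒵 𝒱)
    (C : TheoryData.{0, 0, 0} 𝒱 ℚ) [IsChow C] [PreservesOne C] (K : Type) [Field K]
    [IsAlgClosed K] [CharZero K] (H : WeilTheoryData.{0, 0, 0} C K) [IsWeil H] (s : ℕ),
    (∀ X : 𝒱.Obj, ∃ (A : 𝒱.Obj) (Z : 𝒵.Obj) (πA : A ⟶ A) (πZ : incl hle Z ⟶ incl hle Z),
      IsSituation H E q r s f πA πZ ∧ IsFrobenius C (prodMap πA πZ) (q ^ s) ∧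
        Dominated C X (A.prod (incl hle Z))) →
    (IsSemisimpleCat (CHMot C) ↔ IsSemisimpleCat (CHMot (restrict hle C))) ∧
      (IsSemisimpleCat (CHMot C) ↔ ∀ Z : 𝒵.Obj, RatEqNum H (incl hle Z))

end Pool.Agent.W543.MO
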