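import Mathlib
import Pool.Agent.W543.MO.Asm
import Pool.Agent.W543.MO.Stm
import Pool.Agent.W119.MO.REG
import Pool.Agent.W571.MOT.RADMAT
import Pool.Agent.W319.MO.RadKar
import Pool.Agent.W494.MO.SSREG
import Pool.Agent.W554.MO.TRCOMP
import Pool.Agent.W358.MO.FinChow
import Pool.Agent.W368.MO.RegNum
import Pool.Agent.W509.MO.Fin
import Pool.Agent.W366.MO.TRNIL
import Pool.Agent.W589.MO.DescRes
import Pool.Agent.W15.MO.SSCAT

/-!
# Chow motives over finite fields: the theorem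
-/

set_option autoImplicit false

open CategoryTheory AlgebraicGeometry

namespace Pool.Agent.W543.MO

open Polynomial Pool.Agent.H914 Pool.Agent.H914.VarClass Pool.Agent.H914.VarClass.Obj
  Pool.Agent.W492.BB Pool.Agent.W550.Corr Pool.Agent.W484.CK Pool.Agent.W484.TB
  Pool.Agent.W484.HS Pool.Agent.W521.Frob Pool.Agent.W521.Count Pool.Agent.W521.Bad
  Pool.Agent.W521.Descent Pool.Agent.W521.Density

/-- **Jannsen's theorem** and its converse, for Chow motives: the category of Chow motives of a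
class of varieties is abelian and semisimple if and only if rational and numerical equivalence
coincide on the varieties of the class. -/
theorem isSemisimpleCat_iff {k : Type} [Field k] {𝒱 : VarClass k}
    {C : TheoryData.{0, 0, 0} 𝒱 ℚ} [IsChow C] [PreservesOne C] {K : Type} [Field K] [CharZero K]
    {H : WeilTheoryData.{0, 0, 0} C K} [IsWeil H] (hS : IsStandard H) :
    IsSemisimpleCat (CHMot C) ↔ ∀ X : 𝒱.Obj, RatEqNum H X :=
  isSemisimple_iff hS W554.MO.t_TRCOMP W366.MO.t_TRNIL W358.MO.t_FINCHOW W368.MO.t_REGNUM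
    W119.MO.t_REG W571.MOT.t_RADMAT W319.MO.t_RADKAR W509.MO.t_FINMAT W509.MO.t_FINKAR W15.MO.t_SSCAT
    W494.MO.t_SSREG

section

variable {I : Type} [Finite I] (g : I → ℕ) (E : IntermediateField ℚ ℂ) [FiniteDimensional ℚ E]
  {q : ℕ} (hq : 1 < q) (r : ℕ) (hr : ∀ i, r < g i)
  (x : (Σ i, Fin (g i)) → ℤ) (hx : GoodU (splitPrimes E) g q x)

include hq hr hx

theorem motForRankOver_of_good :
    MotForRankOver E q r (fun i => weil q (polys g x i)) := by
  intro k _ 𝒱 𝒵 hle C _ _ K _ _ _ H _ s hdom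
  have hchow := chowForRankOver_of_good g E hq r hr x hx k 𝒱 C K H s
  have hres := W589.MO.t_RES k 𝒱 𝒵 hle C K H
  have hres3 : IsWeil (restrictWeil hle H) := hres.2.2.1 inferInstance
  have h1 : (∀ X : 𝒱.Obj, RatEqNum H X) ↔ ∀ Z : 𝒵.Obj, RatEqNum H (incl hle Z) := by
    refine ⟨fun h Z => h _, fun h X => ?_⟩
    obtain ⟨A, Z, πA, πZ, hs, hF, hd⟩ := hdom X
    exact W589.MO.t_DESC k 𝒱 C K H X (A.prod (incl hle Z)) hd
      ((hchow A (incl hle Z) πA πZ hs hF).2.1.2 (h Z))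
  have hS : IsStandard H := by
    by_cases hne : Nonempty 𝒱.Obj
    · obtain ⟨X⟩ := hne
      obtain ⟨A, Z, πA, πZ, hs, hF, hd⟩ := hdom X
      exact hs.standard
    · exact ⟨fun X => (hne ⟨X⟩).elim, fun X => (hne ⟨X⟩).elim, fun X => (hne ⟨X⟩).elim,
        fun X => (hne ⟨X⟩).elim, fun X => (hne ⟨X⟩).elim, fun X => (hne ⟨X⟩).elim⟩
  have h2 := isSemisimpleCat_iff (H := H) hS
  have h3 := isSemisimpleCat_iff (C := restrict hle C) (H := restrictWeil hle H)
    (hres.2.2.2.1 hS)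
  have h4 : (∀ Z : 𝒵.Obj, RatEqNum (restrictWeil hle H) Z) ↔
      ∀ Z : 𝒵.Obj, RatEqNum H (incl hle Z) :=
    forall_congr' fun Z => hres.2.2.2.2 Z
  exact ⟨h2.trans (h1.trans (h4.symm.trans h3.symm)), h2.trans h1⟩

end

end Pool.Agent.W543.MO
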